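import Mathlib
import Pool.Agent.H47.L.R_seed8.Y109.PI.Fix
import Pool.Agent.H47.L.R_seed8.Y109.PI.Ord
import Pool.Agent.H47.L.R_pool_sql_team_seeded_3997aac3.Q46.PX.A

/-! Simple roots of the Pfaffian of a pencil. -/

set_option autoImplicit false
set_option linter.all false

open Matrix Polynomial

namespace Pool.Agent.Q46.PX

open Pool.Agent.Y109.PI Pool.Agent.Q46.PIdx Pool.Agent.Helper929

/-- the Pfaffian of a pencil squares to the determinant -/
theorem pf_sq_poly (k : ℕ) (b j : Matrix (Fin (2 * k)) (Fin (2 * k)) ℤ) (hb : ∀ u v, b u v = - b v u)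
    (hj : ∀ u v, j u v = - j v u) :
    pf (2 * k) (b.map C + (X : ℤ[X]) • j.map C) ^ 2 = (b.map C + (X : ℤ[X]) • j.map C).det := by
  refine Polynomial.funext fun c => ?_
  rw [eval_pow, pf_pencil_eval, pf_sq_int]
  · have h := RingHom.map_det (evalRingHom c) (b.map C + (X : ℤ[X]) • j.map C)
    rw [coe_evalRingHom] at h
    rw [h]
    congr 1
    ext u v
    simp only [RingHom.mapMatrix_apply, Matrix.map_apply, Matrix.add_apply, Matrix.smul_apply, smul_eq_mul,
      coe_evalRingHom, eval_add, eval_mul, eval_C, eval_X]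
  · intro u v
    simp only [Matrix.add_apply, Matrix.smul_apply, smul_eq_mul]
    rw [hb u v, hj u v]; ring

/-- **a simple kernel gives a double root of the determinant** -/
theorem det_simple {F : Type*} [Field F] [Fintype F] {I : Type*} [Fintype I] [DecidableEq I] (N J : Matrix I I F)
    (hN : Alt N) (hJ : Alt J) (x y : I → F) (hx : N *ᵥ x = 0) (hy : N *ᵥ y = 0) (hs : x ⬝ᵥ (J *ᵥ y) ≠ 0)
    (hker : ∀ v, N *ᵥ v = 0 → ∃ s t : F, v = s • x + t • y) :
    ∃ D : F[X], (N.map C + (X : F[X]) • J.map C).det = X ^ 2 * D ∧ D.coeff 0 ≠ 0 := by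
  have hx0 : x ≠ 0 := by
    rintro rfl
    exact hs (zero_dotProduct _)
  have hxy : ∀ t : F, y ≠ t • x := by
    rintro t rfl
    apply hs
    rw [Matrix.mulVec_smul, dotProduct_smul, alt_dot_self hJ, smul_zero]
  obtain ⟨a, b, hax, hay, hbx, hby⟩ := exists_dual hx0 hxy
  -- the projection
  let P : Matrix I I F := vecMulVec x a + vecMulVec y b
  have hPv : ∀ v, P *ᵥ v = (a ⬝ᵥ v) • x + (b ⬝ᵥ v) • y := by
    intro v
    simp only [P]
    rw [Matrix.add_mulVec, Matrix.vecMulVec_mulVec, Matrix.vecMulVec_mulVec]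
    simp
  have hNP : N * P = 0 := by
    simp only [P]
    rw [Matrix.mul_add, Matrix.mul_vecMulVec, Matrix.mul_vecMulVec, hx, hy, Matrix.zero_vecMulVec,
      Matrix.zero_vecMulVec, add_zero]
  have hPP : P * P = P := by
    simp only [P]
    rw [Matrix.mul_add, Matrix.add_mul, Matrix.add_mul]
    simp only [Matrix.vecMulVec_mul_vecMulVec, hax, hay, hbx, hby, one_smul, zero_smul, Matrix.vecMulVec_zero,
      add_zero, zero_add]
  set Nc : Matrix I I F[X] := N.map C with hNc
  set Jc : Matrix I I F[X] := J.map C with hJc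
  let Pc : Matrix I I F[X] := P.map C
  have hmapmul : ∀ A B : Matrix I I F, (A * B).map (C : F →+* F[X]) = A.map C * B.map C := fun A B =>
    Matrix.map_mul
  have h1 : Nc * Pc = 0 := by
    rw [hNc, ← hmapmul, hNP]
    ext u v
    simp
  have h2 : Pc * Pc = Pc := by
    change P.map C * P.map C = P.map C
    rw [← hmapmul, hPP]
  let N' : Matrix I I F[X] := Nc + (X : F[X]) • Jc + (1 - X : F[X]) • (Jc * Pc)
  let T : Matrix I I F[X] := 1 + (X - 1 : F[X]) • Pc
  have h3 : N' * T = Nc + (X : F[X]) • Jc := by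
    simp only [N', T]
    rw [Matrix.mul_add, Matrix.mul_one, Matrix.mul_smul, Matrix.add_mul, Matrix.add_mul, h1, Matrix.smul_mul,
      Matrix.smul_mul, Matrix.mul_assoc, h2]
    module
  have h4 : T.det = X ^ 2 := by
    let U : Matrix I (Fin 2) F[X] := Matrix.of fun i k => (X - 1) * C (![x, y] k i)
    let V : Matrix (Fin 2) I F[X] := Matrix.of fun k i => C (![a, b] k i)
    have e1 : T = 1 + U * V := by
      simp only [T]
      congr 1
      ext1 u v
      rw [Matrix.mul_apply, Fin.sum_univ_two, Matrix.smul_apply]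
      simp only [U, V, Pc, P, Matrix.of_apply, Matrix.map_apply, Matrix.add_apply, Matrix.vecMulVec_apply,
        Matrix.cons_val_zero, Matrix.cons_val_one, map_add, map_mul, smul_eq_mul]
      ring
    have e2 : ∀ k l, (V * U) k l = (X - 1) * C (![a, b] k ⬝ᵥ ![x, y] l) := by
      intro k l
      rw [Matrix.mul_apply, dotProduct, map_sum, Finset.mul_sum]
      refine Finset.sum_congr rfl fun i _ => ?_
      simp only [U, V, Matrix.of_apply, map_mul]
      ring
    have e3 : 1 + V * U = (X : F[X]) • (1 : Matrix (Fin 2) (Fin 2) F[X]) := by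
      ext1 k l
      rw [Matrix.add_apply, e2, Matrix.smul_apply]
      fin_cases k <;> fin_cases l
      · simp [hax]
      · simp [hay]
      · simp [hbx]
      · simp [hby]
    rw [e1, Matrix.det_one_add_mul_comm, e3, Matrix.det_smul, Matrix.det_one, mul_one, Fintype.card_fin]
  refine ⟨N'.det, ?_, ?_⟩
  · rw [← h3, Matrix.det_mul, h4, mul_comm]
  · rw [coeff_zero_eq_eval_zero]
    have h := RingHom.map_det (evalRingHom (0 : F)) N'
    rw [coe_evalRingHom] at h
    rw [h]
    have e1 : (evalRingHom (0 : F)).mapMatrix N' = N + J * P := by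
      ext1 u v
      have e2 : (Jc * Pc) u v = C ((J * P) u v) := by
        change (J.map C * P.map C) u v = _
        rw [← hmapmul]; rfl
      rw [hJc] at e2
      simp only [N', RingHom.mapMatrix_apply, Matrix.map_apply, Matrix.add_apply, Matrix.smul_apply, smul_eq_mul,
        coe_evalRingHom, eval_add, eval_mul, eval_X, eval_sub, eval_one, hNc, hJc, e2, eval_C]
      ring
    rw [e1]
    intro hdet
    obtain ⟨v, hv0, hv⟩ := Matrix.exists_mulVec_eq_zero_iff.2 hdet
    rw [Matrix.add_mulVec, ← Matrix.mulVec_mulVec, hPv, Matrix.mulVec_add, Matrix.mulVec_smul, Matrix.mulVec_smul] at hv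
    have hyx : y ⬝ᵥ (J *ᵥ x) ≠ 0 := by
      rw [alt_dot hJ]
      exact neg_ne_zero.2 hs
    have g1 : a ⬝ᵥ v = 0 := by
      have := congrArg (fun w => y ⬝ᵥ w) hv
      simp only [dotProduct_add, dotProduct_smul, dotProduct_zero, alt_dot_self hJ y] at this
      rw [alt_dot hN, hy, dotProduct_zero, neg_zero, smul_zero, add_zero, zero_add, smul_eq_mul] at this
      exact (mul_eq_zero.1 this).resolve_right hyx
    have g2 : b ⬝ᵥ v = 0 := by
      have := congrArg (fun w => x ⬝ᵥ w) hv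
      simp only [dotProduct_add, dotProduct_smul, dotProduct_zero, alt_dot_self hJ x] at this
      rw [alt_dot hN, hx, dotProduct_zero, neg_zero, smul_zero, zero_add, zero_add, smul_eq_mul] at this
      exact (mul_eq_zero.1 this).resolve_right hs
    rw [g1, g2, zero_smul, zero_smul, add_zero, add_zero] at hv
    obtain ⟨s, t, rfl⟩ := hker v hv
    rw [dotProduct_add, dotProduct_smul, dotProduct_smul, hax, hay, smul_zero, add_zero, smul_eq_mul, mul_one] at g1
    rw [dotProduct_add, dotProduct_smul, dotProduct_smul, hbx, hby, smul_zero, zero_add, smul_eq_mul, mul_one] at g2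
    apply hv0
    rw [g1, g2, zero_smul, zero_smul, add_zero]

/-- a simple root modulo a prime lifts to roots modulo all powers -/
theorem hensel_int (p : ℕ) (hp : p.Prime) (f : ℤ[X]) (h0 : (p : ℤ) ∣ f.coeff 0) (h1 : ¬ (p : ℤ) ∣ f.coeff 1) :
    ∀ k : ℕ, ∃ t : ℤ, (p : ℤ) ^ k ∣ f.eval t ∧ (p : ℤ) ∣ t := by
  have hpi : Prime (p : ℤ) := Nat.prime_iff_prime_int.1 hp
  have hd0 : f.derivative.eval 0 = f.coeff 1 := by
    rw [← coeff_zero_eq_eval_zero, coeff_derivative]
    simp
  have hstep : ∀ k : ℕ, ∃ t : ℤ, (p : ℤ) ^ (k + 1) ∣ f.eval t ∧ (p : ℤ) ∣ t := by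
    intro k
    induction k with
    | zero =>
      refine ⟨0, ?_, dvd_zero _⟩
      rw [zero_add, pow_one, ← coeff_zero_eq_eval_zero]
      exact h0
    | succ k ih =>
      obtain ⟨t, ⟨m, hm⟩, htp⟩ := ih
      have hder : ¬ (p : ℤ) ∣ f.derivative.eval t := by
        intro h
        have h2 : (p : ℤ) ∣ f.derivative.eval t - f.derivative.eval 0 := by
          refine dvd_trans ?_ (sub_dvd_eval_sub t 0 f.derivative)
          rw [sub_zero]; exact htp
        rw [hd0] at h2
        exact h1 ((dvd_sub_right h).1 h2)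
      obtain ⟨s, s', hs⟩ := (hpi.coprime_iff_not_dvd.2 hder : IsCoprime (p : ℤ) (f.derivative.eval t))
      -- s p + s' f'(t) = 1
      obtain ⟨z, hz⟩ := f.binomExpansion t (-(p : ℤ) ^ (k + 1) * m * s')
      refine ⟨t + -(p : ℤ) ^ (k + 1) * m * s', ?_, ?_⟩
      · rw [hz, hm]
        have e1 : (p : ℤ) ^ (k + 1) * m + f.derivative.eval t * (-(p : ℤ) ^ (k + 1) * m * s') +
            z * (-(p : ℤ) ^ (k + 1) * m * s') ^ 2 =
            (p : ℤ) ^ (k + 1 + 1) * (m * s + z * m ^ 2 * s' ^ 2 * (p : ℤ) ^ k) := by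
          have e2 : f.derivative.eval t * s' = 1 - s * p := by linear_combination hs
          have e3 : f.derivative.eval t * (-(p : ℤ) ^ (k + 1) * m * s') = -(p : ℤ) ^ (k + 1) * m * (1 - s * p) := by
            rw [← e2]; ring
          rw [e3]
          ring
        rw [e1]
        exact Dvd.intro _ rfl
      · refine dvd_add htp ?_
        rw [pow_succ]
        exact ⟨-(p : ℤ) ^ k * m * s', by ring⟩
  intro k
  rcases k with _ | k
  · exact ⟨0, by rw [pow_zero]; exact one_dvd _, dvd_zero _⟩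
  · exact hstep k

/-- a nonzero value divisible by a power -/
theorem hensel_ne (p : ℕ) (hp : p.Prime) (f : ℤ[X]) (h0 : (p : ℤ) ∣ f.coeff 0) (h1 : ¬ (p : ℤ) ∣ f.coeff 1) (k : ℕ) :
    ∃ t : ℤ, (p : ℤ) ^ k ∣ f.eval t ∧ f.eval t ≠ 0 := by
  obtain ⟨t, ht, _⟩ := hensel_int p hp f h0 h1 k
  have hf : f ≠ 0 := by
    rintro rfl
    exact h1 (by rw [coeff_zero]; exact dvd_zero _)
  by_contra hcon
  push Not at hcon
  have h2 : ∀ m : ℕ, t + (p : ℤ) ^ k * m ∈ f.roots.toFinset := by
    intro m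
    rw [Multiset.mem_toFinset, mem_roots hf, IsRoot.def]
    apply hcon
    have h3 : (p : ℤ) ^ k ∣ f.eval (t + (p : ℤ) ^ k * m) - f.eval t := by
      refine dvd_trans ?_ (sub_dvd_eval_sub _ _ f)
      rw [add_sub_cancel_left]
      exact Dvd.intro _ rfl
    exact (dvd_sub_left ht).1 h3
  have h4 : Function.Injective fun m : ℕ => t + (p : ℤ) ^ k * m := by
    intro a b h
    have h5 : (p : ℤ) ^ k * a = (p : ℤ) ^ k * b := add_left_cancel h
    have hpk : (p : ℤ) ^ k ≠ 0 := pow_ne_zero _ (by exact_mod_cast hp.ne_zero)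
    exact_mod_cast mul_left_cancel₀ hpk h5
  exact Set.infinite_range_of_injective h4 (f.roots.toFinset.finite_toSet.subset (by
    rintro _ ⟨m, rfl⟩
    exact h2 m))

/-- **integral translates with divisible Pfaffian** -/
theorem exists_div {I : Type*} [Fintype I] [DecidableEq I] (g : ℕ) (hI : Fintype.card I = 2 * g) (p : ℕ)
    [Fact p.Prime] (b j : Matrix I I ℤ) (hb : Alt b) (hj : Alt j) (x y : I → ZMod p)
    (hx : red p b *ᵥ x = 0) (hy : red p b *ᵥ y = 0) (hs : x ⬝ᵥ (red p j *ᵥ y) ≠ 0)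
    (hker : ∀ v, red p b *ᵥ v = 0 → ∃ s t : ZMod p, v = s • x + t • y) (k : ℕ) :
    ∃ t P : ℤ, (b + t • j).det = P ^ 2 ∧ (p : ℤ) ^ k ∣ P ∧ P ≠ 0 := by
  have hp : p.Prime := Fact.out
  let e : Fin (2 * g) ≃ I := (finCongr hI.symm).trans (Fintype.equivFin I).symm
  have halt : ∀ a : Matrix I I ℤ, Alt a → ∀ u v, (a.submatrix e e) u v = - (a.submatrix e e) v u :=
    fun a ha u v => ha.2 _ _
  set f : ℤ[X] := pf (2 * g) ((b.submatrix e e).map C + (X : ℤ[X]) • (j.submatrix e e).map C) with hf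
  have hsq := pf_sq_poly g (b.submatrix e e) (j.submatrix e e) (halt b hb) (halt j hj)
  rw [← hf] at hsq
  -- reduce modulo p
  obtain ⟨D, hD, hD0⟩ := det_simple (red p b) (red p j) (hb.map' _) (hj.map' _) x y hx hy hs hker
  set φ : ℤ[X] →+* (ZMod p)[X] := mapRingHom (Int.castRingHom (ZMod p)) with hφ
  have hred : φ f ^ 2 = X ^ 2 * D := by
    rw [← hD, ← map_pow, hsq, RingHom.map_det]
    rw [← Matrix.det_submatrix_equiv_self e]
    congr 1
    ext1 u v
    simp only [RingHom.mapMatrix_apply, Matrix.map_apply, Matrix.add_apply, Matrix.smul_apply, smul_eq_mul,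
      Matrix.submatrix_apply, red, map_add, map_mul, hφ, coe_mapRingHom, Polynomial.map_C, Polynomial.map_X,
      Polynomial.map_mul]
  have hX : X ∣ φ f := by
    have h1 : X ∣ φ f ^ 2 := by
      rw [hred, sq, mul_assoc]
      exact Dvd.intro _ rfl
    exact prime_X.dvd_of_dvd_pow h1
  obtain ⟨q, hq⟩ := hX
  have hqD : q ^ 2 = D := by
    rw [hq, mul_pow] at hred
    exact mul_left_cancel₀ (pow_ne_zero 2 X_ne_zero) hred
  have hq0 : q.coeff 0 ≠ 0 := by
    intro h
    apply hD0
    rw [← hqD, sq, mul_coeff_zero, h, zero_mul]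
  have hcf : ∀ i, ((f.coeff i : ℤ) : ZMod p) = (φ f).coeff i := by
    intro i
    rw [hφ, coe_mapRingHom, coeff_map, eq_intCast]
  have h0 : (p : ℤ) ∣ f.coeff 0 := by
    rw [← ZMod.intCast_zmod_eq_zero_iff_dvd, hcf, hq, mul_coeff_zero, coeff_X_zero, zero_mul]
  have h1 : ¬ (p : ℤ) ∣ f.coeff 1 := by
    rw [← ZMod.intCast_zmod_eq_zero_iff_dvd, hcf, hq, coeff_X_mul]
    exact hq0
  obtain ⟨t, ht, ht0⟩ := hensel_ne p hp f h0 h1 k
  refine ⟨t, f.eval t, ?_, ht, ht0⟩
  rw [hf, pf_pencil_eval, pf_sq_int]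
  · have h5 : b.submatrix e e + t • j.submatrix e e = (b + t • j).submatrix e e := rfl
    rw [h5, Matrix.det_submatrix_equiv_self]
  · intro u v
    simp only [Matrix.add_apply, Matrix.smul_apply, Matrix.submatrix_apply]
    rw [hb.2, hj.2 (e u)]
    simp only [smul_neg]
    ring

end Pool.Agent.Q46.PX
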