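import Mathlib
import Pool.Agent.H47.L.R_seed8.Y109.PI.Tower
import Pool.Agent.H47.L.R_seed8.Y109.PI.Frob
import Pool.Agent.H47.L.R_seed8.Y109.PI.Ord

/-! The index of a product of powers of symbols. -/

set_option autoImplicit false
set_option linter.all false

open scoped TensorProduct
open Matrix

noncomputable section

namespace Pool.Agent.Q46.PX

open Pool.Agent.Helper346.Bra Pool.Agent.Helper18.Br Pool.Agent.H552R3.SymBr Pool.Agent.H552R3.SymPred
  Pool.Agent.H552R3.Tsen Pool.Agent.Y109.PI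

universe u

/-- **adjoining roots of prime order** -/
theorem ind_roots {n : ℕ} (hn : 0 < n) (g : ℕ) : ∀ (R : ℕ), 0 < R → ∀ (K : Type u) [Field K] (ζ : K)
    (hζ : IsPrimitiveRoot ζ n) (x y : Fin g → Kˣ) (m : Fin g → ℕ) (d : Fin g → ℤ), ∏ i, m i = R →
    (∀ i, (n : ℤ) ∣ m i * d i) → IndDvd (∏ i, symCl hn hζ (x i) (y i) ^ d i) R := by
  intro R
  induction R using Nat.strong_induction_on with
  | _ R ih =>
  intro hR K _ ζ hζ x y m d hm hd
  by_cases hR1 : R = 1
  · have hm1 : ∀ i, m i = 1 := fun i => by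
      have h1 : m i ∣ 1 := by
        rw [← hR1, ← hm]
        exact Finset.dvd_prod_of_mem _ (Finset.mem_univ i)
      exact Nat.dvd_one.1 h1
    have h2 : ∏ i, symCl hn hζ (x i) (y i) ^ d i = 1 := by
      refine Finset.prod_eq_one fun i _ => ?_
      obtain ⟨c, hc⟩ := hd i
      rw [hm1, Nat.cast_one, one_mul] at hc
      rw [hc, _root_.zpow_mul, zpow_natCast, symCl_tors, _root_.one_zpow]
    rw [h2, hR1]
    exact hasRep_one.indDvd
  · have hq : (R.minFac).Prime := Nat.minFac_prime hR1
    obtain ⟨i0, -, hi0⟩ := (Prime.dvd_finsetProd_iff hq.prime m).1 (by rw [hm]; exact Nat.minFac_dvd R)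
    obtain ⟨m', hm'⟩ := hi0
    set q := R.minFac with hqdef
    obtain ⟨K', _, _, _, hfin, c, hc⟩ := exists_root q hq (x i0)
    let m1 : Fin g → ℕ := Function.update m i0 m'
    let d1 : Fin g → ℤ := Function.update d i0 (q * d i0)
    let x1 : Fin g → K'ˣ := Function.update (fun i => ι K' (x i)) i0 c
    have hRq : R = q * ∏ i, m1 i := by
      rw [← hm, Finset.prod_update_of_mem (Finset.mem_univ i0), ← mul_assoc, ← hm', ← Finset.erase_eq,
        Finset.mul_prod_erase _ _ (Finset.mem_univ i0)]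
    have hR1' : 0 < ∏ i, m1 i := Nat.pos_of_ne_zero (fun h => by rw [h, mul_zero] at hRq; omega)
    have hlt : ∏ i, m1 i < R := by
      have h1 : 1 * ∏ i, m1 i < q * ∏ i, m1 i := Nat.mul_lt_mul_of_pos_right hq.one_lt hR1'
      rw [one_mul, ← hRq] at h1
      exact h1
    have key := ih _ hlt hR1' K' (algebraMap K K' ζ) (rootK K' hζ) x1 (fun i => ι K' (y i)) m1 d1 rfl (by
      intro i
      by_cases hi : i = i0
      · subst hi
        simp only [m1, d1, Function.update_self]
        have e1 : ((m' : ℤ) * (q * d i)) = (m i : ℤ) * d i := by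
          rw [hm']; push_cast; ring
        rw [e1]
        exact hd i
      · simp only [m1, d1, Function.update_of_ne hi]
        exact hd i)
    have hprod : ∏ i, symCl hn (rootK K' hζ) (x1 i) (ι K' (y i)) ^ d1 i =
        res K' (∏ i, symCl hn hζ (x i) (y i) ^ d i) := by
      rw [map_prod]
      refine Finset.prod_congr rfl fun i _ => ?_
      rw [map_zpow, res_symCl]
      by_cases hi : i = i0
      · subst hi
        simp only [x1, d1, Function.update_self]
        rw [← hc]
        have e1 : symCl hn (rootK K' hζ) (c ^ q) (ι K' (y i)) = symCl hn (rootK K' hζ) c (ι K' (y i)) ^ q := by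
          change symHom hn (rootK K' hζ) (c ^ q) (ι K' (y i)) = _
          rw [map_pow]; rfl
        rw [e1, ← zpow_natCast, ← _root_.zpow_mul]
      · simp only [x1, d1, Function.update_of_ne hi]
    rw [hprod] at key
    have h7 := IndDvd.of_res K' key
    intro D _ _ _ _ hD
    refine (h7 D hD).trans ?_
    rw [hRq]
    exact Nat.mul_dvd_mul_right hfin _

/-- the elementary divisors of an alternating matrix -/
theorem prod_of_det {I : Type} [Fintype I] [DecidableEq I] (g : ℕ) (hI : Fintype.card I = 2 * g)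
    (b : Matrix I I ℤ) (hb : Alt b) (P : ℤ) (hP : b.det = P ^ 2) (hP0 : P ≠ 0) :
    ∃ (d : Fin g → ℤ) (e f : Fin g → I → ℤ), (b = ∑ i, d i • wdg (e i) (f i)) ∧ P ∣ ∏ i, d i ∧ ∏ i, d i ≠ 0 := by
  have hdet : b.det ≠ 0 := by rw [hP]; exact pow_ne_zero _ hP0
  obtain ⟨d, e, f, A, B, hmat, hinv, hdvd⟩ := frob_matrix g hI b hb hdet
  refine ⟨d, e, f, hmat, ?_, fun h0 => hdet (by rw [h0] at hdvd; simpa using hdvd)⟩
  obtain ⟨σ⟩ : Nonempty (I ≃ Fin g ⊕ Fin g) := by
    refine Fintype.card_eq.1 ?_
    rw [hI, Fintype.card_sum, Fintype.card_fin]; ring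
  let M : Matrix I I ℤ := Matrix.of fun k v => Sum.elim e f (σ k) v
  let N : Matrix I I ℤ := Matrix.of fun k v => Sum.elim f (-e) (σ k) v
  let D : Matrix I I ℤ := Matrix.diagonal fun k => Sum.elim d d (σ k)
  have hM : b = M.transpose * (D * N) := by
    rw [hmat]
    ext u v
    rw [Matrix.mul_apply, Matrix.sum_apply, ← Equiv.sum_comp σ.symm, Fintype.sum_sum_type,
      ← Finset.sum_add_distrib]
    refine Finset.sum_congr rfl fun i _ => ?_
    simp only [M, N, D, wdg, Matrix.transpose_apply, Matrix.of_apply, Equiv.apply_symm_apply, Sum.elim_inl,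
      Sum.elim_inr, Pi.neg_apply, Matrix.smul_apply, Matrix.diagonal_mul, smul_eq_mul]
    ring
  have hD : D.det = (∏ i, d i) ^ 2 := by
    rw [Matrix.det_diagonal, ← Equiv.prod_comp σ.symm, Fintype.prod_sum_type]
    simp only [Equiv.apply_symm_apply, Sum.elim_inl, Sum.elim_inr]
    rw [sq]
  have hM1 : IsUnit M.det := by
    let M' : Matrix I I ℤ := Matrix.of fun u k => Sum.elim (fun i => A i u) (fun i => B i u) (σ k)
    have h1 : M' * M = 1 := by
      ext u v
      rw [Matrix.mul_apply, ← Equiv.sum_comp σ.symm, Fintype.sum_sum_type, Matrix.one_apply, ← hinv u v]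
      simp only [M, M', Matrix.of_apply, Equiv.apply_symm_apply, Sum.elim_inl, Sum.elim_inr]
    have h2 := congrArg Matrix.det h1
    rw [Matrix.det_mul, Matrix.det_one] at h2
    exact IsUnit.of_mul_eq_one _ (by rw [mul_comm]; exact h2)
  have hN1 : IsUnit N.det := by
    let N' : Matrix I I ℤ := Matrix.of fun u k => Sum.elim (fun i => B i u) (fun i => - A i u) (σ k)
    have h1 : N' * N = 1 := by
      ext u v
      rw [Matrix.mul_apply, ← Equiv.sum_comp σ.symm, Fintype.sum_sum_type, Matrix.one_apply, ← hinv u v, add_comm]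
      simp only [N, N', Matrix.of_apply, Equiv.apply_symm_apply, Sum.elim_inl, Sum.elim_inr, Pi.neg_apply]
      congr 1
      refine Finset.sum_congr rfl fun i _ => ?_
      ring
    have h2 := congrArg Matrix.det h1
    rw [Matrix.det_mul, Matrix.det_one] at h2
    exact IsUnit.of_mul_eq_one _ (by rw [mul_comm]; exact h2)
  have h3 : P ^ 2 ∣ (∏ i, d i) ^ 2 := by
    rw [← hP, hM, Matrix.det_mul, Matrix.det_mul, Matrix.det_transpose, hD]
    rw [hM1.mul_left_dvd, hN1.mul_right_dvd]
  exact (Int.pow_dvd_pow_iff two_ne_zero).1 h3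

/-- multiplicities -/
theorem exists_mult (p : ℕ) (hp : p.Prime) (k g : ℕ) (hg : 0 < g) (d : Fin g → ℤ)
    (h : (p : ℤ) ^ k ∣ ∏ i, d i) (h0 : ∏ i, d i ≠ 0) :
    ∃ m : Fin g → ℕ, (∀ i, ((p ^ k : ℕ) : ℤ) ∣ m i * d i) ∧ ∏ i, m i ∣ (p ^ k) ^ (g - 1) ∧ 0 < ∏ i, m i := by
  have hd0 : ∀ i, d i ≠ 0 := fun i hi => h0 (Finset.prod_eq_zero (Finset.mem_univ i) hi)
  haveI : Fact p.Prime := ⟨hp⟩
  let a : Fin g → ℕ := fun i => padicValInt p (d i)
  have hsum : k ≤ ∑ i, a i := by
    have h1 : padicValInt p (∏ i, d i) = ∑ i, a i := by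
      classical
      have : ∀ s : Finset (Fin g), padicValInt p (∏ i ∈ s, d i) = ∑ i ∈ s, a i := by
        intro s
        induction s using Finset.induction_on with
        | empty => simp
        | insert i s hi ih =>
          rw [Finset.prod_insert hi, Finset.sum_insert hi, padicValInt.mul (hd0 i)
            (Finset.prod_ne_zero_iff.2 fun j _ => hd0 j), ih]
      exact this _
    rw [← h1]
    exact (padicValInt_dvd_iff k _).1 h |>.resolve_left h0
  refine ⟨fun i => p ^ (k - min k (a i)), fun i => ?_, ?_, Finset.prod_pos fun i _ => pow_pos hp.pos _⟩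
  · have h2 : ((p : ℤ) ^ (min k (a i))) ∣ d i :=
      (padicValInt_dvd_iff _ _).2 (Or.inr (min_le_right _ _))
    have e1 : ((p ^ k : ℕ) : ℤ) = ((p ^ (k - min k (a i)) : ℕ) : ℤ) * (p : ℤ) ^ (min k (a i)) := by
      push_cast
      rw [← pow_add, Nat.sub_add_cancel (min_le_left _ _)]
    rw [e1]
    exact mul_dvd_mul_left _ h2
  · rw [Finset.prod_pow_eq_pow_sum, ← pow_mul]
    apply pow_dvd_pow
    have h3 : ∑ i, (k - min k (a i)) + ∑ i, min k (a i) = g * k := by
      rw [← Finset.sum_add_distrib, Finset.sum_congr rfl (g := fun _ => k) (fun i _ => Nat.sub_add_cancel (min_le_left _ _)),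
        Finset.sum_const, Finset.card_univ, Fintype.card_fin, smul_eq_mul]
    have h4 : k ≤ ∑ i, min k (a i) := by
      by_cases hex : ∃ i, k ≤ a i
      · obtain ⟨i, hi⟩ := hex
        calc k = min k (a i) := (min_eq_left hi).symm
          _ ≤ _ := Finset.single_le_sum (f := fun i => min k (a i)) (fun _ _ => Nat.zero_le _) (Finset.mem_univ i)
      · push Not at hex
        rw [Finset.sum_congr rfl (g := a) (fun i _ => min_eq_right (hex i).le)]
        exact hsum
    have h5 : k * (g - 1) + k = g * k := by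
      obtain ⟨g', rfl⟩ := Nat.exists_eq_add_of_lt hg
      simp; ring
    omega

end Pool.Agent.Q46.PX
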